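import Pool.Agent.H500.LV.D

set_option autoImplicit false
set_option linter.unusedSectionVars false

/-!
# The Fontaine-Mazur conjecture for everywhere unramified systems with solvable residual images

Let `K` be a number field of narrow class number one (every prime ideal is generated by a totally
positive element; for example `K = ℚ`), `E` a number field and `P v`, for EVERY place `v` of `K`, a
polynomial with coefficients in the integers of `E`.  Suppose that for a set of primes `λ` of `E` of
positive upper density there is a residual representation of dimension `n` of the absolute Galois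
group of `K` with SOLVABLE image, unramified at all the places not dividing the norm of `λ`, with the
characteristic polynomials `P v mod λ` at the geometric Frobenius elements.  The residual
representations for different `λ` are not related, except by the polynomials.

Then there are exponents `t i σ ≥ 0` such that `P v` has the zeros `∏_σ σ(x)^(t i σ)`, `i = 1, …, n`, for
all `v = (x)`, `x` totally positive, and for all `ℓ` every continuous semisimple `ℓ-adic` representation
`V` of the absolute Galois group of `K` with these Frobenius polynomials at almost all places is the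
direct sum of `n` algebraic characters `Φ 1, …, Φ n`, unramified outside `ℓ`, with
`Φ i (Frob_v) = ∏_σ σ(x)^(t i σ)`; if `t i σ = m` for all `σ` then `Φ i` is the `(-m)`-th power of the
cyclotomic character.  For `K = ℚ`: `P p = ∏ (X - p^(m i))` for all prime numbers `p`, and every `V` is a
direct sum of Tate twists `ℚ_ℓ(-m i)`, the cohomology of powers of the projective line.  No condition at
the places above `ℓ` is assumed.

Steps of the proof: the solvable case (Mal'cev, Kummer theory, Chebotarev, class field theory, projects
SV, TH, ZO) for the moduli `2` and `3` gives two solvable extensions of `K`, one unramified outside `2`,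
the other outside `3`; on the corresponding subgroups all (semisimplified) residual representations are
commutative (a normal subgroup of unipotent elements acts trivially).  The two subgroups generate the
Galois group, as `K` has no everywhere unramified solvable extension; the elements which are central in
the residual image contain their intersection, and again by the absence of everywhere unramified
solvable extensions the residual image is commutative.  Then the theorem on families which are abelian
modulo many places, for the modulus `1`.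
-/

namespace Pool.Agent.Results.MP_f68ac8_nt.LevelOneSystems

open NumberField IsDedekindDomain Filter Topology Polynomial
open Pool.Agent.W401.Cheb (GK IsFrob IsInert dens)
open Pool.Agent.H500.HC (TotPos QBar ZBar jz)
open Pool.Agent.H500.ME (SolvableAt IsCyc)
open Pool.Agent.H500.ZO (SemiS)

theorem result (K E : Type) [Field K] [NumberField K] [Field E] [NumberField E]
    (hK : ∀ v : HeightOneSpectrum (𝓞 K), ∃ x : 𝓞 K, TotPos x ∧ v.asIdeal = Ideal.span {x})
    (j : E →+* QBar) (n : ℕ) (P : HeightOneSpectrum (𝓞 K) → (𝓞 E)[X])
    (h : ¬ Tendsto (dens (SolvableAt 1 n P)) atTop (𝓝 0)) :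
    ∃ t : Fin n → (K →+* QBar) → ℕ,
      (∀ (v : HeightOneSpectrum (𝓞 K)) (x : 𝓞 K), TotPos x → v.asIdeal = Ideal.span {x} →
        (P v).map (jz j) =
          ∏ i, (X - Polynomial.C (∏ σ, RingOfIntegers.mapRingHom σ x ^ t i σ))) ∧
      ∀ (ℓ : ℕ) [Fact ℓ.Prime] (κ : QBar →+* PadicAlgCl ℓ),
        ∃ Φ : Fin n → (GK K →* (PadicAlgCl ℓ)ˣ),
          (∀ i, Continuous fun g => (Φ i g : PadicAlgCl ℓ)) ∧
          (∀ (i : Fin n) (v : HeightOneSpectrum (𝓞 K)), (ℓ : 𝓞 K) ∉ v.asIdeal →
            (∀ τ, IsInert v τ → Φ i τ = 1) ∧ ∀ σ, IsFrob v σ → ∀ x : 𝓞 K, TotPos x →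
              v.asIdeal = Ideal.span {x} → (Φ i σ⁻¹ : PadicAlgCl ℓ) =
                κ ((∏ σ, RingOfIntegers.mapRingHom σ x ^ t i σ : ZBar) : QBar)) ∧
          (∀ (i : Fin n) (m : ℕ), (∀ σ, t i σ = m) → ∀ χ : GK K →* (PadicAlgCl ℓ)ˣ,
            IsCyc ℓ χ → ∀ g, (Φ i g : PadicAlgCl ℓ) = (χ g : PadicAlgCl ℓ)⁻¹ ^ m) ∧
          ∀ V : GK K →* GL (Fin n) (PadicAlgCl ℓ),
            Continuous (fun g => (V g : Matrix (Fin n) (Fin n) (PadicAlgCl ℓ))) → SemiS V →
            (∀ᶠ v : HeightOneSpectrum (𝓞 K) in cofinite, ∀ σ, IsFrob v σ →
              (V σ⁻¹ : Matrix (Fin n) (Fin n) (PadicAlgCl ℓ)).charpoly =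
                (P v).map ((κ.comp j).comp (algebraMap (𝓞 E) E))) →
            ∃ Q : GL (Fin n) (PadicAlgCl ℓ), ∀ g,
              (V g : Matrix (Fin n) (Fin n) (PadicAlgCl ℓ)) *
                (Q : Matrix (Fin n) (Fin n) (PadicAlgCl ℓ)) =
              (Q : Matrix (Fin n) (Fin n) (PadicAlgCl ℓ)) *
                Matrix.diagonal fun i => (Φ i g : PadicAlgCl ℓ) := by
  have hP : Pool.Agent.H500.MW.PosUD (Pool.Agent.H500.TH.SolRes 1 n P) :=
    Pool.Agent.H500.MW.PosUD.mono (Pool.Agent.H500.MW.posUD_of_not h) fun _ hv => hv.solRes
  obtain ⟨t, h1, h2⟩ := Pool.Agent.H500.LV.level_adic hK j n P hP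
  refine ⟨t, h1, fun ℓ hℓ κ => ?_⟩
  obtain ⟨Φ, h3, h4, h5⟩ := h2 ℓ κ
  exact ⟨Φ, h3, h4, fun i m hm χ hχ g => Pool.Agent.H500.LV.cyc_of hK κ hm (Φ i) χ (h3 i)
    (fun v hv σ hσ x hx hvx => (h4 i v hv).2 σ hσ x hx hvx) hχ g, h5⟩

end Pool.Agent.Results.MP_f68ac8_nt.LevelOneSystems
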