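import Pool.Agent.H518.UQ.StepB
import Pool.Agent.H518.FM4.Tame

/-!
# Tame representations of any rank whose first layer spans a Lie algebra: most tuples of primes

Let `k ≥ 0` and `δ > 0`. For all sufficiently large primes `p` the following holds. For all primes `q₁ ≡ 1 mod p` but a proportion
of at most `δ`, for all primes `q₂ ≡ 1 mod p` but a proportion of at most `δ` (which may depend on `q₁`), …, for all primes
`q_k ≡ 1 mod p` but a proportion of at most `δ`, the set `T = {q₁, …, q_k}` has the following property.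

Let `S` be any set (finite or infinite) of primes `l ≠ p` whose members congruent to `1` modulo `p` are in `T`. Let `A` be a
discrete valuation ring of characteristic zero and residue characteristic `p` with residue field `κ`, and let
`ρ : Gal(ℚbar/ℚ) → GL_n(A)` be a continuous representation of any rank `n`, unramified outside `S` (so at `p` also) and trivial
modulo `p` on the inertia groups at `S`; so `ρ(g) = 1 + p α(g)`. If the `κ`-span of the first layer, the matrices `α(g)` modulo the
maximal ideal, is closed under commutators (for example if it is `sl_n(κ)` or another Lie subalgebra of `gl_n(κ)`, or if the image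
of `ρ` is powerful), then `ρ` is trivial.

The bound for `p` depends on `k` and `δ` only, not on the rank `n`. If `k ≥ 4` the Galois group of the maximal `p`-extension of `ℚ`
unramified outside `T` is infinite (Golod-Shafarevich). The library has the following results for most tuples of primes: all
representations of rank two (`MostTuplesRankTwo`), and all representations of rank `n` for tuples of at most four primes.

Proof. The elements `T_l` of the first layer which belong to the inertia groups at `l ∈ T` span it, and `[X_l, T_l] = u_l T_l`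
where `X_l = ∑ λ_lj T_j`, the `λ_lj` are the linking numbers and `u_l = (l - 1) / p` modulo `p`. By elimination and Chebotarev's
theorem (joint equidistribution of linking numbers, from the library) it is enough to show that in characteristic zero no Lie
algebra `L ≠ 0` is spanned by elements `T_l` which satisfy these relations with algebraically independent `λ_lj`, `u_l`, if all the
structure is algebraic over the field generated by them.
* `L` is perfect, and dividing by abelian ideals we may assume that its Killing form is not degenerate (Cartan).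
* By the theorem of Jacobson and Morozov there is `x_l` with `[x_l, T_l] = T_l` such that `-1` is no eigenvalue of `ad x_l` on the
  centralizer of `T_l`.
* A derivation `D` of the base field lifts to a derivation `∇` of `L` (Whitehead's second lemma, by the Casimir element). For `y`
  in the centralizer of `T_l` we have `(∇ T_l, y + [x_l, y]) = (∇ T_l - [x_l, ∇ T_l], y) = ([∇ x_l, T_l], y) = 0`, so `∇ T_l` is
  orthogonal to the centralizer, and hence in `[T_l, L]`.
* Let `D u_l = 0` and let the `D λ_lj` be arbitrary. Differentiating the relations we see that the linear map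
  `(w_l) ↦ (∑ λ_lj ([T_j, w_l] + [w_j, T_l]) - u_l w_l)` maps `∏ [T_l, L]` onto itself, because the `T_j` span `L`. So it is
  injective. But the `([a, T_l])`, `a ∈ L`, are in its kernel. So all `T_l` are central, and `T_l = 0`.
-/

set_option autoImplicit false

open NumberField Matrix IsLocalRing

namespace Pool.Agent.Results.MP_f68ac8_nt.MostTuplesLieLayer

open Pool.Agent.Results.MP_f68ac8_nt.MostTuplesRankTwo (Most)

/-- `ρ` is unramified at the maximal ideal `P` of the ring of all algebraic integers. -/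
def UnramAt {E : Type} [Group E] (ρ : Gal(AlgebraicClosure ℚ/ℚ) →* E) (P : Ideal (𝓞 (AlgebraicClosure ℚ))) : Prop :=
  ∀ τ : Gal(AlgebraicClosure ℚ/ℚ), (∀ x : 𝓞 (AlgebraicClosure ℚ), τ • x - x ∈ P) → ρ τ = 1

/-- The first layer of `ρ : G → GL_n(A)`: the matrices `α` modulo the maximal ideal where `ρ(g) = 1 + p α`, `g ∈ G`. -/
def Layer (p : ℕ) {G A : Type} [Group G] [CommRing A] [IsLocalRing A] {n : ℕ} (ρ : G →* GL (Fin n) A) :
    Set (Matrix (Fin n) (Fin n) (ResidueField A)) :=
  {X | ∃ (g : G) (α : Matrix (Fin n) (Fin n) A), (ρ g : Matrix (Fin n) (Fin n) A) = 1 + (p : A) • α ∧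
    X = (residue A).mapMatrix α}

/-- Let `S` be any set of primes `l ≠ p` whose members congruent to `1` modulo `p` are in `T`, let `A` be a discrete valuation ring
of characteristic zero and residue characteristic `p` with the adic topology, `n ≥ 0`, and let `ρ : Gal(ℚbar/ℚ) → GL_n(A)` be
continuous, unramified outside `S` and trivial modulo `p` on the inertia groups at the primes in `S`. If the span of the first layer
of `ρ` over the residue field is closed under commutators, `ρ` is trivial. -/
def LayerFM (p : ℕ) (T : Set ℕ) : Prop :=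
  ∀ S : Set ℕ, (∀ l ∈ S, l.Prime ∧ l ≠ p) → (∀ l ∈ S, p ∣ l - 1 → l ∈ T) →
    ∀ (n : ℕ) (A : Type) [CommRing A] [IsDomain A] [IsDiscreteValuationRing A] [CharZero A] [TopologicalSpace A],
      IsAdic (maximalIdeal A) → (p : A) ∈ maximalIdeal A →
      ∀ ρ : Gal(AlgebraicClosure ℚ/ℚ) →* GL (Fin n) A, Continuous ρ →
        (∀ P : Ideal (𝓞 (AlgebraicClosure ℚ)), P.IsMaximal → (∀ l ∈ S, (l : 𝓞 (AlgebraicClosure ℚ)) ∉ P) → UnramAt ρ P) →
        (∀ P : Ideal (𝓞 (AlgebraicClosure ℚ)), P.IsMaximal → (∃ l ∈ S, (l : 𝓞 (AlgebraicClosure ℚ)) ∈ P) →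
          ∀ τ : Gal(AlgebraicClosure ℚ/ℚ), (∀ x : 𝓞 (AlgebraicClosure ℚ), τ • x - x ∈ P) →
            ∀ i j, (p : A) ∣ ((ρ τ : Matrix (Fin n) (Fin n) A) - 1) i j) →
        (∀ X ∈ Layer p ρ, ∀ Y ∈ Layer p ρ, X * Y - Y * X ∈ Submodule.span (ResidueField A) (Layer p ρ)) →
        ∀ g, ρ g = 1

section
open Pool.Agent.H518.UQ
open Pool.Agent.K1H81.GT (V R0 ev full)
open Pool.Agent.Q202.RT Pool.Agent.Q202.QT
open Pool.Agent.TH831.OE Pool.Agent.TH831.NA
open Pool.Agent.H518.FM4 (Sol most_main level_of_F)

variable {p : ℕ} [hpF : Fact p.Prime] {d : ℕ} {F : R0 d}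
  (hF : ∀ (K : Type) [Field K] (v : V d → K), ev v F ≠ 0 →
    (∀ i, v (Sum.inr i) ≠ 0) ∧ ∀ n ≤ d,
    ∀ (M : Fin d → Matrix (Fin n) (Fin n) K) (γ : Fin d → Fin d → Fin d → K), Sol v M → Cl M γ → ∀ l, M l = 0)
  {χ : ∀ j : ℕ, (ZMod j)ˣ →* Multiplicative (ZMod p)} (hχ : Kr χ) {l : ℕ → ℕ} (hne : ev (full χ l : V d → ZMod p) F ≠ 0)
  (hli : ∀ i < d, ∀ j < d, l i = l j → i = j)

include hF hχ hne hli

theorem layer_of (hp3 : 3 ≤ p) : LayerFM p (l '' {i | i < d}) := by
  have hp : p.Prime := hpF.out
  have hlev : ∀ q ∈ l '' {i | i < d}, ¬ p ^ 2 ∣ q - 1 := level_of_F (F := F) (fun K _ v hv => (hF K v hv).1) hne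
  intro S hS hST n A _ _ _ _ _ hA hpA ρ hρ hur hI hcl
  have hp0 : ∀ k : ℕ, (p : A) ^ k ≠ 0 := fun k => pow_ne_zero k (Nat.cast_ne_zero.2 hp.ne_zero)
  have hcts := cts_memN hA hρ
  have hcong : ∀ g i j, (p : A) ∣ ((ρ g : Matrix (Fin n) (Fin n) A) - 1) i j := by
    intro g i j
    rw [← Ideal.mem_span_singleton]
    refine cong_of_inertia hcts (Ideal.span {(p : A)}) (fun P hP τ hτ => ?_) g i j
    by_cases hSP : ∃ l ∈ S, (l : 𝓞 (AlgebraicClosure ℚ)) ∈ P
    · exact fun i j => Ideal.mem_span_singleton.2 (hI P hP hSP τ hτ i j)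
    · intro i j
      have h1 : ρ τ = 1 := hur P hP (fun l hl hlP => hSP ⟨l, hl, hlP⟩) τ hτ
      have h2 : ((ρ τ : Matrix (Fin n) (Fin n) A) - 1) i j ∈ Ideal.span {(p : A)} := by
        rw [h1, Units.val_one, sub_self]
        exact Ideal.zero_mem _
      exact h2
  have hcong' : ∀ g, ∃ α : Matrix (Fin n) (Fin n) A,
      (ρ g : Matrix (Fin n) (Fin n) A) = 1 + ((p : A) ^ 1) • α := by
    intro g
    choose b hb using hcong g
    refine ⟨Matrix.of b, ?_⟩
    rw [← sub_eq_iff_eq_add']
    ext i j
    rw [hb, Matrix.smul_apply, Matrix.of_apply, smul_eq_mul, pow_one]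
  have hreg : ∀ a : A, (p : A) * a = 0 → a = 0 := fun a ha =>
    (mul_eq_zero.1 ha).resolve_left (Nat.cast_ne_zero.2 hp.ne_zero)
  have hprim : ∀ k : ℕ, ∃ N : ℕ, maximalIdeal A ^ N ≤ Ideal.span {(p : A) ^ k} := by
    intro k
    obtain ⟨N, hN⟩ := exists_maximalIdeal_pow_eq_of_principal A
      (IsPrincipalIdealRing.principal (maximalIdeal A)) (Ideal.span {(p : A) ^ k})
      (by rw [Ne, Ideal.span_singleton_eq_bot]; exact hp0 k)
    exact ⟨N, hN.ge⟩
  refine trivB (χ := χ) hpA hreg hprim (by omega) (SS := S) (fun q hq => ⟨(hS q hq).1, (hS q hq).2, fun h => ?_⟩)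
    (fun q hq hpq => (hχ q (hS q hq).1 hpq).1)
    (fun J hJ => noBr_of hF hne hli J fun q hq => ?_) hcts hur hcl hcong'
  · exact hlev q (hST q hq ((dvd_pow_self p two_ne_zero).trans h)) h
  · obtain ⟨i, hi, h⟩ := hST q (hJ q hq).1 (hJ q hq).2
    exact ⟨i, hi, h⟩

end

/-- **Tame representations of any rank whose first layer spans a Lie algebra, most tuples of primes.** -/
theorem result (k : ℕ) (δ : ℝ) (hδ : 0 < δ) : ∃ p₀ : ℕ, ∀ p : ℕ, p₀ ≤ p → p.Prime →
    Most p δ (fun T => (∀ q ∈ T, ¬ p ^ 2 ∣ q - 1) ∧ LayerFM p T) k ∅ := by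
  obtain ⟨F, hF0, hF⟩ := Pool.Agent.H518.UQ.exists_Fall k
  refine Pool.Agent.H518.FM4.most_main k δ hδ F hF0 _ ?_
  intro p _ χ hp3 hχ l hne hl hpl hli
  exact ⟨Pool.Agent.H518.FM4.level_of_F (F := F) (fun K _ v hv => (hF K v hv).1) hne, layer_of hF hχ hne hli hp3⟩

end Pool.Agent.Results.MP_f68ac8_nt.MostTuplesLieLayer
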