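import Pool.Agent.H518.UQ.Step
import Pool.Agent.H518.FM4.Tame

/-!
# Uniform quotients of tame Galois groups: most tuples of primes

Let `k ≥ 0` and `δ > 0`. For all sufficiently large primes `p` the following holds. For all primes `q₁ ≡ 1 mod p` but a proportion
of at most `δ`, for all primes `q₂ ≡ 1 mod p` but a proportion of at most `δ` (which may depend on `q₁`), …, for all primes
`q_k ≡ 1 mod p` but a proportion of at most `δ`, the set `T = {q₁, …, q_k}` has the following property.

Let `S` be any set (finite or infinite) of primes `l ≠ p` whose members congruent to `1` modulo `p` are in `T`.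
Let `U` be a group with a filtration `U = Fil r ⊇ Fil (r + 1) ⊇ ...`, `r ≥ 1`, by subgroups with trivial intersection such that
`[Fil i, Fil j] ⊆ Fil (i + j)` and the `p`-th power map is an injective homomorphism from `Fil i / Fil (i + 1)` to
`Fil (i + r) / Fil (i + r + 1)`. (Examples are the uniform pro-`p` groups, with `r = 1` and `Fil (1 + i) = U ^ (p ^ i)`, and the
congruence subgroups `1 + p M_n(A)` for discrete valuation rings `A` in which `p` has valuation `r`.) Every homomorphism
`ρ : Gal(ℚbar/ℚ) → U`, continuous for the filtration and unramified outside `S` (so at `p` also), with powerful image (commutators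
of elements of the image are `p`-th powers of elements of the image modulo `Fil (2 r + 1)`) is trivial. In particular the Galois
group of the maximal extension of `ℚ` unramified outside `S` has no uniform pro-`p` quotient of positive dimension.

The bound for `p` depends on `k` and `δ` only, not on `U`. If `k ≥ 4` the Galois group of the maximal `p`-extension of `ℚ`
unramified outside `T` is infinite (Golod-Shafarevich).

Proof. The commutator and the inverse of the `p`-th power map make the first layer of the image into a Lie algebra over `𝔽_p`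
(the Jacobi identity follows from the identity of Hall and Witt modulo `Fil (3 r + 1)`). It is spanned by elements `T_l`, `l ∈ T`,
with `[X_l, T_l] = u_l T_l` where `X_l = ∑ λ_lj T_j`, the `λ_lj` are the linking numbers and `u_l = (l - 1) / p` modulo `p`. By
elimination and Chebotarev's theorem (joint equidistribution of linking numbers, from the library) it is enough to show that in
characteristic zero no Lie algebra `L ≠ 0` is spanned by elements `T_l` which satisfy these relations with algebraically
independent `λ_lj`, `u_l`, if all the structure is algebraic over the field generated by them.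
* `L` is perfect, and dividing by abelian ideals we may assume that its Killing form is not degenerate (Cartan).
* By the theorem of Jacobson and Morozov there is `x_l` with `[x_l, T_l] = T_l` such that `-1` is no eigenvalue of `ad x_l` on the
  centralizer of `T_l`.
* A derivation `D` of the base field lifts to a derivation `∇` of `L` (Whitehead's second lemma, by the Casimir element). For `y`
  in the centralizer of `T_l` we have `(∇ T_l, y + [x_l, y]) = (∇ T_l - [x_l, ∇ T_l], y) = ([∇ x_l, T_l], y) = 0`, so `∇ T_l` is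
  orthogonal to the centralizer, and hence in `[T_l, L]`.
* Let `D u_l = 0` and let the `D λ_lj` be arbitrary. Differentiating the relations we see that the linear map
  `(w_l) ↦ (∑ λ_lj ([T_j, w_l] + [w_j, T_l]) - u_l w_l)` maps `∏ [T_l, L]` onto itself, because the `T_j` span `L`. So it is
  injective. But the `([a, T_l])`, `a ∈ L`, are in its kernel. So all `T_l` are central, and `T_l = 0`.
-/

set_option autoImplicit false

open NumberField Matrix IsLocalRing

namespace Pool.Agent.Results.MP_f68ac8_nt.MostTuplesUniform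

open Pool.Agent.Results.MP_f68ac8_nt.MostTuplesRankTwo (Most)

/-- `ρ` is unramified at the maximal ideal `P` of the ring of all algebraic integers. -/
def UnramAt {E : Type} [Group E] (ρ : Gal(AlgebraicClosure ℚ/ℚ) →* E) (P : Ideal (𝓞 (AlgebraicClosure ℚ))) : Prop :=
  ∀ τ : Gal(AlgebraicClosure ℚ/ℚ), (∀ x : 𝓞 (AlgebraicClosure ℚ), τ • x - x ∈ P) → ρ τ = 1

/-- `Fil` is a separated filtration of the group `U = Fil r` by subgroups, from the index `r` on, such that commutators add the
indices and the `p`-th power map is an injective homomorphism from `Fil i / Fil (i + 1)` to `Fil (i + r) / Fil (i + r + 1)`. -/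
structure Valued {U : Type} [Group U] (p r : ℕ) (Fil : ℕ → Subgroup U) : Prop where
  top : Fil r = ⊤
  anti : ∀ i, Fil (i + 1) ≤ Fil i
  comm : ∀ i j, r ≤ i → r ≤ j → ∀ x ∈ Fil i, ∀ y ∈ Fil j, x * y * x⁻¹ * y⁻¹ ∈ Fil (i + j)
  pow : ∀ i, r ≤ i → ∀ x ∈ Fil i, x ^ p ∈ Fil (i + r)
  hom : ∀ i, r ≤ i → ∀ x ∈ Fil i, ∀ y ∈ Fil i, (x * y) ^ p * (x ^ p * y ^ p)⁻¹ ∈ Fil (i + r + 1)
  inj : ∀ i, r ≤ i → ∀ x ∈ Fil i, x ^ p ∈ Fil (i + r + 1) → x ∈ Fil (i + 1)
  sep : ∀ x, (∀ i, x ∈ Fil i) → x = 1

/-- Let `S` be any set of primes `l ≠ p` whose members congruent to `1` modulo `p` are in `T`, let `U` be a group with a filtration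
as above, `r ≥ 1`, and let `ρ : Gal(ℚbar/ℚ) → U` be a homomorphism, continuous for the filtration and unramified outside `S`, such
that all commutators of elements of the image are `p`-th powers of elements of the image modulo `Fil (2 r + 1)`. Then `ρ` is
trivial. -/
def PowerfulFM (p : ℕ) (T : Set ℕ) : Prop :=
  ∀ S : Set ℕ, (∀ l ∈ S, l.Prime ∧ l ≠ p) → (∀ l ∈ S, p ∣ l - 1 → l ∈ T) →
    ∀ (U : Type) [Group U] (r : ℕ) (Fil : ℕ → Subgroup U), 1 ≤ r → Valued p r Fil →
      ∀ ρ : Gal(AlgebraicClosure ℚ/ℚ) →* U, (∀ N, IsOpen {g | ρ g ∈ Fil N}) →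
        (∀ P : Ideal (𝓞 (AlgebraicClosure ℚ)), P.IsMaximal → (∀ l ∈ S, (l : 𝓞 (AlgebraicClosure ℚ)) ∉ P) → UnramAt ρ P) →
        (∀ g h, ∃ k, (ρ g * ρ h * (ρ g)⁻¹ * (ρ h)⁻¹) * (ρ k ^ p)⁻¹ ∈ Fil (2 * r + 1)) →
        ∀ g, ρ g = 1

section
open Pool.Agent.H518.UQ
open Pool.Agent.K1H81.GT (V R0 ev full)
open Pool.Agent.Q202.RT Pool.Agent.Q202.QT
open Pool.Agent.TH831.OE Pool.Agent.TH831.NA
open Pool.Agent.H518.FM4 (Sol most_main level_of_F)

variable {p : ℕ} [hpF : Fact p.Prime] {d : ℕ} {F : R0 d}
  (hF : ∀ (K : Type) [Field K] (v : V d → K), ev v F ≠ 0 →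
    (∀ i, v (Sum.inr i) ≠ 0) ∧ ∀ n ≤ d,
    ∀ (M : Fin d → Matrix (Fin n) (Fin n) K) (γ : Fin d → Fin d → Fin d → K), Sol v M → Cl M γ → ∀ l, M l = 0)
  {χ : ∀ j : ℕ, (ZMod j)ˣ →* Multiplicative (ZMod p)} (hχ : Kr χ) {l : ℕ → ℕ} (hne : ev (full χ l : V d → ZMod p) F ≠ 0)
  (hli : ∀ i < d, ∀ j < d, l i = l j → i = j)

include hF hχ hne hli

theorem powerful_of (hp3 : 3 ≤ p) : PowerfulFM p (l '' {i | i < d}) := by
  have hp : p.Prime := hpF.out
  have hlev : ∀ q ∈ l '' {i | i < d}, ¬ p ^ 2 ∣ q - 1 := level_of_F (F := F) (fun K _ v hv => (hF K v hv).1) hne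
  intro S hS hST U _ r Fil hr hFil ρ hcts hur hpow
  refine trivU (p := p) (Fil := Fil) (r := r) ⟨hFil.top, hFil.anti, hFil.comm, hFil.pow, hFil.hom, hFil.inj, hFil.sep⟩
    hr (by omega) (SS := S) (χ := χ) (fun q hq => ⟨(hS q hq).1, (hS q hq).2, fun h => ?_⟩)
    (fun q hq hpq => (hχ q (hS q hq).1 hpq).1)
    (fun J hJ => noBr_of hF hne hli J fun q hq => ?_) (fun N => ?_) hpow hur
  · exact hlev q (hST q hq ((dvd_pow_self p two_ne_zero).trans h)) h
  · obtain ⟨i, hi, h⟩ := hST q (hJ q hq).1 (hJ q hq).2
    exact ⟨i, hi, h⟩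
  · exact (hcts N).mem_nhds (by
      show ρ 1 ∈ Fil N
      rw [map_one]
      exact Subgroup.one_mem _)

end

/-- **Uniform quotients of tame Galois groups, most tuples of primes.** -/
theorem result (k : ℕ) (δ : ℝ) (hδ : 0 < δ) : ∃ p₀ : ℕ, ∀ p : ℕ, p₀ ≤ p → p.Prime →
    Most p δ (fun T => (∀ q ∈ T, ¬ p ^ 2 ∣ q - 1) ∧ PowerfulFM p T) k ∅ := by
  obtain ⟨F, hF0, hF⟩ := Pool.Agent.H518.UQ.exists_Fall k
  refine Pool.Agent.H518.FM4.most_main k δ hδ F hF0 _ ?_
  intro p _ χ hp3 hχ l hne hl hpl hli
  exact ⟨Pool.Agent.H518.FM4.level_of_F (F := F) (fun K _ v hv => (hF K v hv).1) hne, powerful_of hF hχ hne hli hp3⟩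

end Pool.Agent.Results.MP_f68ac8_nt.MostTuplesUniform
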