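import Pool.Agent.H517.B.Fam4
import Pool.Agent.H517.S.Fm
import Pool.Agent.H517.E.Fm4
import Pool.Agent.H517.E.Full
import Pool.Agent.H517.E.Two
import Pool.Agent.H517.S.Rat
import Pool.Agent.H517.D.Gd
import Pool.Agent.H517.D.PKum
import Pool.Agent.H517.D.PFr
import Pool.Agent.H517.D.PEq
import Pool.Agent.H517.D.POne
import Pool.Agent.H517.D.PCnt
import Pool.Agent.H517.D.PRk

/-!
# Representations of the Galois groups of the fields in `p`-towers are controlled by one decomposition group

`p` is a prime number, `K` a number field (totally complex if `p = 2`), `w` a place of `K` above `p`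
and `S` a finite set of places of `K` not above `p`. The condition `Generates p S w` on the class group
and on the units outside `w` of `K` is that the class group modulo the class of `w` has order prime to
`p` and that, `(p) = w^e 𝔟` with `𝔟` prime to `w` and `𝔫` the product of the primes in `S`, every
element of `(O / 𝔟³ 𝔫)ˣ` is the product of a `p`-th power and of the image of an `α ∈ O` for which
`(α)` is a power of `w`. It is satisfied by

* `K = ℚ(√(1 - 4p))`, `S = ∅` and both places above `p`, for every prime number `p`;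
* `K = ℚ`, `S = {q}`, for all odd prime numbers `p` and all prime numbers `q ≠ p`, unless `q` is `1`
  modulo `p` and `p` is a `p`-th power modulo `q`, so for all `q` outside a set of density
  `1 / (p (p - 1))`;
* all `K` with only one place `w` above `p` whose class group modulo the class of `w` has order prime to
  `p`, with `S = ∅`;
* all `K` with exactly one other place `w'` above `p`, if `p` is odd, `w'` is unramified of degree `1`, the
  class group modulo the class of `w` has order prime to `p` and some `α` with `(α)` a power of `w` has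
  `α ^ (p - 1) ≢ 1` modulo `w' ^ 2` (for instance imaginary quadratic `K` in which `p` splits);
* if it holds for `S`, then it holds for `S ∪ {v}` for a set of primes `v` of `K` with natural density
  `1 - #((O / 𝔟³ 𝔫)ˣ / p-th powers) / ([K(ζ_p) : K] p ^ (r₁ + r₂ + δ))`, `δ = 1` if `ζ_p ∈ K`, else `0`
  (Kummer theory and Chebotarev's theorem: it fails for the `v` which split completely in the field
  generated over `K` by the `p`-th roots of the `α`, `(α)` a power of `w`, which are congruent to a
  `p`-th power modulo `𝔟³ 𝔫`). So up to `r₁ + r₂ + δ` primes `v` of norm `1` modulo `p` can be added if `w`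
  is the only place above `p`.

Let `L` be a field which is contained in a finite Galois extension `M / K` of degree a power of `p`,
unramified outside `p` and `S`. (There is no condition on the Galois group of `M / K`, and `L / K` need
not be Galois. Usually the Galois group of the maximal such `M` is not abelian and not even `p`-adic
analytic.) Let `V` be a continuous representation of `G_L` over a field `F`, of any dimension `n`, which is
defined over a Noetherian local ring `A` with finite residue field of characteristic `p` (for instance `F` is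
an algebraic closure of `ℚ_p` and `A` the ring of integers of a finite extension of `ℚ_p`), residually
unipotent and unramified outside `p` and `S`. Let `Q` be ONE place of `ℚ̄` above `w`. Nothing is assumed at
the other places above `p`.

We allow also the fields `L` which are contained in a finite Galois extension `M / K` of degree `2 · p^a`, unramified outside
`p` and `S`, which contains the `p`-th roots of unity, provided that the dual condition `Independent p S w` holds: `K_w` contains
no primitive `p`-th root of unity, and an element of `Kˣ` which is a `p`-th power in `K_w` and whose orders outside `p` and `S`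
are divisible by `p` is a `p`-th power in `K`. Then `p` is odd and `[K(ζ_p) : K] = 2`, and the `L` are the fields in the towers of
`p`-extensions over `K(ζ_p)`; for `p = 3` these are all towers of `3`-extensions over `K(√-3)`. With `S = ∅` both conditions are
satisfied by both places above `p` of imaginary quadratic fields `K` if `p` is odd, `(p) = w w'`, `w ≠ w'`, `p` does not divide
the class number and `α ^ (p - 1) ≢ 1` modulo `w'²` for an `α` for which `(α)` is a power of `w`, e.g. for `p = 3` and `ℚ(√-2)`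
and `ℚ(√-11)`. So for
`p = 3` the theorem applies to the representations of `G_K` whose residual constituents are `𝔽_3` and `μ_3`, restricted to
`K(√-3)`. The decomposition group is dense also in the maximal pro-`p` quotient unramified outside `p` and `S` of the group of
`K(ζ_p)`: for the two eigenspaces of the homomorphisms to `ℤ/p` this is class field theory over `K` and Kummer theory
over `K`.

Theorem. (a) The image of the decomposition group of `Q` in `G_L` is equal to the image of `G_L`. Every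
subspace of `V` which is stable under a subgroup of finite index of the decomposition group
of `Q` in `G_L` is stable under an open subgroup of `G_L`. (b) If `V` is semisimple and has a full flag of such
subspaces (for instance if `V` is potentially ordinary at this one place) then `V` is potentially
abelian. (c) Let `F` be algebraically closed of characteristic not `p` and `V` irreducible. There are an open
subgroup `L'` of `G_L` of index `p ^ a` and a subspace `W` of `V`, stable under `L'`, such that `p ^ a * dim W = n`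
(so `V` is induced from `W`) and such that the dimension of every subspace of `V` which is stable under a
subgroup of finite index of the decomposition group of `Q` in `G_L` is divisible by `dim W`. If one of these
dimensions is prime to `n` (for instance, if `V` potentially contains a line at this one place) then `V` is
induced from a character and potentially abelian.

For example `V = V_p(B) ⊗ F` for an abelian variety `B` over `L` with good reduction outside `p` and `S` all of whose
points of order `p` are rational over `L` (or over a field `M` as above) is semisimple (Faltings), and if `B` has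
potentially ordinary reduction at `Q` it has a full flag as in (b). So `B` has potentially complex
multiplication (this is not part of the formal proof).

For potentially abelian representations which are de Rham at the places above `p` the conjecture of
Fontaine and Mazur is known, by the theory of Hecke characters and of complex multiplication (this is
not part of the formal proof).

Proof. By class field theory (reciprocity, proved in an earlier run) no cyclic extension of `K` of degree
`p` which is unramified outside `p` and `S` is totally split at `w`. By the theorem of Burnside the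
decomposition groups of `w` are dense in the maximal pro-`p` quotients unramified outside `p` and `S`
of `G_K` and of `G_L`. This gives (a), and (b) and (c) follow by Clifford theory.
-/

set_option autoImplicit false
set_option linter.unusedSectionVars false

namespace Pool.Agent.Results.MP_f68ac8_nt.OnePlaceInTowers

open NumberField IsDedekindDomain Matrix IsLocalRing Module

/-! ### The Galois groups, the decomposition groups and the inertia groups -/

/-- An algebraic closure of the number field `K`. -/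
abbrev Bar (K : Type) [Field K] : Type := AlgebraicClosure K

/-- The absolute Galois group of `K`. -/
abbrev Gal (K : Type) [Field K] : Type := Bar K ≃ₐ[K] Bar K

/-- The absolute Galois group of the field `L` between `K` and its algebraic closure, a subgroup of the
absolute Galois group of `K` with the Krull topology. -/
abbrev GalL {K : Type} [Field K] (L : IntermediateField K (Bar K)) : Type := L.fixingSubgroup

section def1

variable {K : Type} [Field K]

/-- The maximal ideal `Q` of the ring of all algebraic integers lies above the prime `v` of `K`. -/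
def Above (Q : Ideal (𝓞 (Bar K))) (v : HeightOneSpectrum (𝓞 K)) : Prop :=
  Q.IsMaximal ∧ Q.comap (algebraMap (𝓞 K) (𝓞 (Bar K))) = v.asIdeal

/-- The decomposition group of the maximal ideal `Q` of the ring of all algebraic integers: the `σ`
such that `σ Q = Q`. -/
def Dec (Q : Ideal (𝓞 (Bar K))) : Set (Gal K) := {σ | ∀ x : 𝓞 (Bar K), x ∈ Q ↔ σ • x ∈ Q}

/-- The inertia group: the `σ` such that `σ x` is congruent to `x` modulo `Q` for all `x`. -/
def Inr (Q : Ideal (𝓞 (Bar K))) : Set (Gal K) := {σ | ∀ x : 𝓞 (Bar K), σ • x - x ∈ Q}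

/-- `Q` is a place of the field of all algebraic numbers at which no ramification is allowed: it is a
maximal ideal, not above `p` and not above a prime in `S`. -/
def Outside (p : ℕ) (S : Finset (HeightOneSpectrum (𝓞 K))) (Q : Ideal (𝓞 (Bar K))) : Prop :=
  Q.IsMaximal ∧ (p : 𝓞 (Bar K)) ∉ Q ∧ ∀ v ∈ S, ¬ Above Q v

/-- `L` is contained in a finite Galois extension `M / K` whose degree is a power of `p` and which is
unramified outside `p` and `S`. -/
def InTower (p : ℕ) (S : Finset (HeightOneSpectrum (𝓞 K))) (L : IntermediateField K (Bar K)) :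
    Prop :=
  ∃ M : IntermediateField K (Bar K), L ≤ M ∧ FiniteDimensional K M ∧ IsGalois K M ∧
    (∃ a : ℕ, finrank K M = p ^ a) ∧
    ∀ Q : Ideal (𝓞 (Bar K)), Outside p S Q → ∀ σ ∈ Inr Q, ∀ x ∈ M, σ x = x

/-- `L` is contained in a finite Galois extension `M / K` of degree `2 · p ^ a` which contains the `p`-th
roots of unity and is unramified outside `p` and `S`. -/
def InTowerTwo (p : ℕ) (S : Finset (HeightOneSpectrum (𝓞 K))) (L : IntermediateField K (Bar K)) :
    Prop :=
  ∃ M : IntermediateField K (Bar K), L ≤ M ∧ FiniteDimensional K M ∧ IsGalois K M ∧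
    (∃ a : ℕ, finrank K M = 2 * p ^ a) ∧ (∀ ζ : Bar K, ζ ^ p = 1 → ζ ∈ M) ∧
    ∀ Q : Ideal (𝓞 (Bar K)), Outside p S Q → ∀ σ ∈ Inr Q, ∀ x ∈ M, σ x = x

/-! ### The representations -/

variable {L : IntermediateField K (Bar K)} {n : ℕ} {A : Type} [CommRing A]

/-- `ρ` is a continuous representation of the absolute Galois group of `L` over `A`, residually
unipotent and unramified outside `p` and `S`. -/
structure Admissible [IsLocalRing A] [TopologicalSpace A] (p : ℕ)
    (S : Finset (HeightOneSpectrum (𝓞 K))) (ρ : GalL L →* GL (Fin n) A) : Prop where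
  cont : ∀ i j, Continuous fun σ => (ρ σ : Matrix (Fin n) (Fin n) A) i j
  unipotent : ∀ σ, ∃ m : ℕ, ∀ i j,
    (((ρ σ : Matrix (Fin n) (Fin n) A) - 1) ^ m) i j ∈ maximalIdeal A
  unramified : ∀ Q : Ideal (𝓞 (Bar K)), Outside p S Q →
    ∀ σ : GalL L, (σ : Gal K) ∈ Inr Q → ρ σ = 1

variable (F : Type) [Field F] [Algebra A F]

/-- The action of `σ` on `V = F ^ n`. -/
noncomputable def act (ρ : GalL L →* GL (Fin n) A) (σ : GalL L) (x : Fin n → F) : Fin n → F :=
  ((ρ σ : Matrix (Fin n) (Fin n) A).map (algebraMap A F)) *ᵥ x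

/-- The subspace `W` of `V = F ^ n` is stable under the subgroup `H`. -/
def Stable (ρ : GalL L →* GL (Fin n) A) (H : Subgroup (GalL L)) (W : Submodule F (Fin n → F)) :
    Prop :=
  ∀ σ ∈ H, ∀ x ∈ W, act F ρ σ x ∈ W

/-- `V` is irreducible. -/
def Irreducible (ρ : GalL L →* GL (Fin n) A) : Prop :=
  ∀ W : Submodule F (Fin n → F), Stable F ρ ⊤ W → W = ⊥ ∨ W = ⊤

/-- `X` is potentially stable under `D`: it is stable under a subgroup `D'` of the absolute Galois
group of `L`, finitely many left cosets of which cover the elements of this group which are in `D`. -/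
def PotentiallyStable (ρ : GalL L →* GL (Fin n) A) (D : Set (Gal K))
    (X : Submodule F (Fin n → F)) : Prop :=
  ∃ (D' : Subgroup (GalL L)) (R : Set (GalL L)), R.Finite ∧
    (∀ δ : GalL L, (δ : Gal K) ∈ D → ∃ r ∈ R, r⁻¹ * δ ∈ D') ∧ Stable F ρ D' X

/-- `X` is stable under an open subgroup of the absolute Galois group of `L` of index a power of `p`. -/
def OpenlyStable (p : ℕ) (ρ : GalL L →* GL (Fin n) A) (X : Submodule F (Fin n → F)) : Prop :=
  ∃ H : Subgroup (GalL L), IsOpen (H : Set (GalL L)) ∧ (∃ a : ℕ, H.index = p ^ a) ∧ Stable F ρ H X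

/-- `V` is semisimple. -/
def Semisimple (ρ : GalL L →* GL (Fin n) A) : Prop :=
  ∀ W : Submodule F (Fin n → F), Stable F ρ ⊤ W →
    ∃ W' : Submodule F (Fin n → F), Stable F ρ ⊤ W' ∧ IsCompl W W'

/-- `V` has a full flag `0 = X 0 ≤ X 1 ≤ … ≤ X n = V` of subspaces which are potentially stable under `D`,
`dim X (i + 1) ≤ dim X i + 1`. (This is so for `D = Dec Q` if `V` is potentially ordinary at `Q`.) -/
def HasFlag (ρ : GalL L →* GL (Fin n) A) (D : Set (Gal K)) : Prop :=
  ∃ X : ℕ → Submodule F (Fin n → F), X 0 = ⊥ ∧ X n = ⊤ ∧ ∀ i < n, X i ≤ X (i + 1) ∧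
    finrank F (X (i + 1)) ≤ finrank F (X i) + 1 ∧ PotentiallyStable F ρ D (X i)

/-- The irreducible representation `V` is induced from the representation `W` of `H`: the subgroup `H`
is open, its index is a power of `p`, the subspace `W` of `V` is stable under `H`, and the dimension
of `V` is the product of the index of `H` and the dimension of `W`. -/
structure InducedFrom (p : ℕ) (ρ : GalL L →* GL (Fin n) A) (H : Subgroup (GalL L))
    (W : Submodule F (Fin n → F)) : Prop where
  isOpen : IsOpen (H : Set (GalL L))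
  index : ∃ a : ℕ, H.index = p ^ a
  stable : Stable F ρ H W
  dim : H.index * finrank F W = n

/-- `V` is potentially abelian: the elements of an open normal subgroup of finite index commute on
`V`. -/
def PotentiallyAbelian (ρ : GalL L →* GL (Fin n) A) : Prop :=
  ∃ C : Subgroup (GalL L), C.Normal ∧ C.FiniteIndex ∧ IsOpen (C : Set (GalL L)) ∧
    ∀ σ ∈ C, ∀ τ ∈ C, ∀ x, act F ρ σ (act F ρ τ x) = act F ρ τ (act F ρ σ x)

end def1

/-! ### The condition on the place above `p` and on `S` -/

section def2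

variable {K : Type} [Field K] [NumberField K]

/-- The class of a prime. -/
noncomputable def cl (w : HeightOneSpectrum (𝓞 K)) : ClassGroup (𝓞 K) :=
  ClassGroup.mk0 ⟨w.asIdeal, mem_nonZeroDivisors_iff_ne_zero.2 w.ne_bot⟩

/-- The class group modulo the class of `w` has order prime to `p`. -/
def ClassCondition (p : ℕ) (w : HeightOneSpectrum (𝓞 K)) : Prop :=
  ∀ C : ClassGroup (𝓞 K), ∃ m k : ℕ, ¬ p ∣ m ∧ C ^ m = cl w ^ k

/-- The place `w` lies above `p`, those in `S` do not, the class group modulo the class of `w` has order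
prime to `p` and, `(p) = w ^ e 𝔟` with `𝔟` prime to `w` and `𝔫` the product of the primes in `S`,
the group `(O / 𝔟 ^ 3 𝔫)ˣ` is generated by the `p`-th powers and the images of the elements `α` of
`O` for which `(α)` is a power of `w`. -/
structure Generates (p : ℕ) (S : Finset (HeightOneSpectrum (𝓞 K))) (w : HeightOneSpectrum (𝓞 K)) :
    Prop where
  above : (p : 𝓞 K) ∈ w.asIdeal
  tame : ∀ v ∈ S, (p : 𝓞 K) ∉ v.asIdeal
  classes : ClassCondition p w
  units : ∃ (e : ℕ) (𝔟 : Ideal (𝓞 K)), w.asIdeal ^ e * 𝔟 = Ideal.span {(p : 𝓞 K)} ∧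
    IsCoprime w.asIdeal 𝔟 ∧ ∀ x : 𝓞 K, IsCoprime (Ideal.span {x}) (𝔟 * ∏ v ∈ S, v.asIdeal) →
      ∃ (α y : 𝓞 K) (k : ℕ), Ideal.span {α} = w.asIdeal ^ k ∧
        x * α - y ^ p ∈ 𝔟 ^ 3 * ∏ v ∈ S, v.asIdeal

/-- The natural density, among all primes of `K`, of the set of the primes with the property `P` is
`a`. -/
def HasDensity (P : HeightOneSpectrum (𝓞 K) → Prop) (a : ℝ) : Prop :=
  Filter.Tendsto (fun N : ℕ => (Nat.card {v : HeightOneSpectrum (𝓞 K) //
      Ideal.absNorm v.asIdeal ≤ N ∧ P v} : ℝ) /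
        (Nat.card {v : HeightOneSpectrum (𝓞 K) // Ideal.absNorm v.asIdeal ≤ N} : ℝ))
    Filter.atTop (nhds a)

/-- The order of `(O / I)ˣ` modulo the `p`-th powers. -/
noncomputable def unitsModPowers (p : ℕ) (I : Ideal (𝓞 K)) : ℕ :=
  (powMonoidHom p : (𝓞 K ⧸ I)ˣ →* (𝓞 K ⧸ I)ˣ).range.index

open Classical in
/-- The order of the group of the elements of `Kˣ` which are units outside `w`, modulo its `p`-th powers,
multiplied by the degree of `K(ζ_p)` over `K`: it is `[K(ζ_p) : K] p ^ (r₁ + r₂ + δ)` where `K` has `r₁`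
real and `r₂` complex places and `δ = 1` if `K` contains a primitive `p`-th root of unity, `δ = 0` if
not. -/
noncomputable def kummerDegree (p : ℕ) (K : Type) [Field K] [NumberField K] : ℕ :=
  finrank K (IntermediateField.adjoin K {ζ : Bar K | ζ ^ p = 1}) *
    p ^ (InfinitePlace.nrRealPlaces K + InfinitePlace.nrComplexPlaces K +
      if ∃ ζ : K, IsPrimitiveRoot ζ p then 1 else 0)

/-- The element `x` of `K` has a `p`-th root which is fixed by the decomposition group of a place above
`w`, that is, it is a `p`-th power in the completion of `K` at `w`. -/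
def PowerAt (p : ℕ) (w : HeightOneSpectrum (𝓞 K)) (x : K) : Prop :=
  ∃ (Q : Ideal (𝓞 (Bar K))) (y : Bar K), Above Q w ∧ y ^ p = algebraMap K (Bar K) x ∧
    ∀ σ ∈ Dec Q, σ y = y

/-- The completion at `w` contains no primitive `p`-th root of unity, and the elements of `Kˣ` which
are `p`-th powers there and whose orders at the primes not above `p` and not in `S` are divisible by `p` are
`p`-th powers in `K`. -/
structure Independent (p : ℕ) (S : Finset (HeightOneSpectrum (𝓞 K))) (w : HeightOneSpectrum (𝓞 K)) :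
    Prop where
  roots : ∀ Q : Ideal (𝓞 (Bar K)), Above Q w → ∀ ζ : Bar K, IsPrimitiveRoot ζ p →
    ∃ σ ∈ Dec Q, σ ζ ≠ ζ
  powers : ∀ x : K, x ≠ 0 → (∀ v : HeightOneSpectrum (𝓞 K), (p : 𝓞 K) ∉ v.asIdeal → v ∉ S →
    ∃ t : WithZero (Multiplicative ℤ), v.valuation K x = t ^ p) → PowerAt p w x → ∃ b : K, x = b ^ p

/-- The fields `L` to which the theorem applies: those in the towers of `p`-extensions over `K` and, if `Independent` holds,
those in the towers of `p`-extensions over `K(ζ_p)`, `[K(ζ_p) : K] = 2`. -/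
def Controlled (p : ℕ) (S : Finset (HeightOneSpectrum (𝓞 K))) (w : HeightOneSpectrum (𝓞 K))
    (L : IntermediateField K (Bar K)) : Prop :=
  InTower p S L ∨ (Independent p S w ∧ InTowerTwo p S L)

/-- **One place controls.** Let `V = F ^ n` be a representation of the absolute Galois group of a field
`L` in the towers over `K` (continuous over `A`, residually unipotent, unramified outside `p` and `S`) and `Q` ONE
place above `w`. (a) The image of the decomposition group of `Q` is the image of `G_L`. A subspace of `V` which is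
potentially stable for the decomposition group of `Q` is stable under an open subgroup of `G_L`. (b) If `V` is semisimple and has a full flag of such subspaces, it is
potentially abelian. (c) If `F` is algebraically closed of characteristic not `p` and `V` is irreducible, it is induced
from a representation `W` of an open subgroup of index a power of `p` such that `dim W` divides the
dimensions of all such subspaces; if one of these dimensions is prime to `n`, then `V` is potentially
abelian. -/
def OnePlaceControls (p : ℕ) (S : Finset (HeightOneSpectrum (𝓞 K))) (w : HeightOneSpectrum (𝓞 K)) :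
    Prop :=
  ∀ L : IntermediateField K (Bar K), Controlled p S w L →
  ∀ (A : Type) [CommRing A] [IsLocalRing A] [IsNoetherianRing A] [TopologicalSpace A],
    IsAdic (maximalIdeal A) → Finite (ResidueField A) → (p : A) ∈ maximalIdeal A →
  ∀ (F : Type) [Field F] [Algebra A F] (n : ℕ) (ρ : GalL L →* GL (Fin n) A), Admissible p S ρ →
  ∀ Q : Ideal (𝓞 (Bar K)), Above Q w →
    (∀ σ : GalL L, ∃ δ : GalL L, (δ : Gal K) ∈ Dec Q ∧ ρ δ = ρ σ) ∧
    (∀ X : Submodule F (Fin n → F), PotentiallyStable F ρ (Dec Q) X → OpenlyStable F p ρ X) ∧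
    (Semisimple F ρ → HasFlag F ρ (Dec Q) → PotentiallyAbelian F ρ) ∧
    (IsAlgClosed F → (p : F) ≠ 0 → n ≠ 0 → Irreducible F ρ →
      (∃ (H : Subgroup (GalL L)) (W : Submodule F (Fin n → F)), InducedFrom F p ρ H W ∧
        ∀ X : Submodule F (Fin n → F), PotentiallyStable F ρ (Dec Q) X →
          finrank F W ∣ finrank F X) ∧
      ((∃ X : Submodule F (Fin n → F), PotentiallyStable F ρ (Dec Q) X ∧
        (finrank F X).Coprime n) → PotentiallyAbelian F ρ))

/-- There is only one place above `p`. -/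
def OnlyPlace (p : ℕ) (w : HeightOneSpectrum (𝓞 K)) : Prop :=
  ∃ e : ℕ, w.asIdeal ^ e = Ideal.span {(p : 𝓞 K)}

/-- The prime `p` is odd, there is exactly one place `w'` above `p` other than `w`, it is unramified of
degree `1`, and there is an `α` such that `(α)` is a power of `w` and `α ^ (p - 1)` is not `1` modulo
`w' ^ 2`. -/
def SecondPlace (p : ℕ) (w : HeightOneSpectrum (𝓞 K)) : Prop :=
  p ≠ 2 ∧ ∃ (w' : HeightOneSpectrum (𝓞 K)) (e : ℕ), w ≠ w' ∧
    w.asIdeal ^ e * w'.asIdeal = Ideal.span {(p : 𝓞 K)} ∧ Ideal.absNorm w'.asIdeal = p ∧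
    ∃ (α : 𝓞 K) (k : ℕ), Ideal.span {α} = w.asIdeal ^ k ∧ α ^ (p - 1) - 1 ∉ w'.asIdeal ^ 2

/-- Both conditions. -/
def Suitable (p : ℕ) (S : Finset (HeightOneSpectrum (𝓞 K))) (w : HeightOneSpectrum (𝓞 K)) : Prop :=
  Generates p S w ∧ Independent p S w

/-- The classical condition for imaginary quadratic fields: `(p) = w w'`, `w ≠ w'`, `p` does not divide the class number
and `α ^ (p - 1)` is not `1` modulo `w' ^ 2` for an `α` for which `(α)` is a power of `w`. -/
def Gold (p : ℕ) (w w' : HeightOneSpectrum (𝓞 K)) : Prop :=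
  w ≠ w' ∧ w.asIdeal * w'.asIdeal = Ideal.span {(p : 𝓞 K)} ∧ ¬ p ∣ classNumber K ∧
    ∃ (α : 𝓞 K) (k : ℕ), Ideal.span {α} = w.asIdeal ^ k ∧ α ^ (p - 1) - 1 ∉ w'.asIdeal ^ 2

open Classical in
/-- **The density of the primes which can be added.** For `(p) = w ^ e 𝔟`, `𝔟` prime to `w`, and `𝔫` the
product of the primes in `S`, the primes `v` such that the condition holds for `S ∪ {v}` have natural
density `1 - #((O / 𝔟 ^ 3 𝔫)ˣ / p-th powers) / ([K(ζ_p) : K] p ^ (r₁ + r₂ + δ))`; the numerator is `p ^ j`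
if `𝔟 = O`, where `j` is the number of the `v ∈ S` with norm `1` modulo `p`. -/
def DensityOfExtensions (p : ℕ) (S : Finset (HeightOneSpectrum (𝓞 K)))
    (w : HeightOneSpectrum (𝓞 K)) : Prop :=
  ∀ (e : ℕ) (𝔟 : Ideal (𝓞 K)), w.asIdeal ^ e * 𝔟 = Ideal.span {(p : 𝓞 K)} →
    IsCoprime w.asIdeal 𝔟 →
    HasDensity (fun v => Generates p (insert v S) w)
      (1 - (unitsModPowers p (𝔟 ^ 3 * ∏ v ∈ S, v.asIdeal) : ℝ) / (kummerDegree p K : ℝ)) ∧
    (𝔟 = ⊤ → unitsModPowers p (𝔟 ^ 3 * ∏ v ∈ S, v.asIdeal) =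
      p ^ (S.filter fun v => p ∣ Ideal.absNorm v.asIdeal - 1).card)

end def2

/-! ### The theorem -/

section proof

open Pool.Agent.NH7.Sch (OO)
open Pool.Agent.H517

variable {K : Type} [Field K] [NumberField K] {p : ℕ} [hp : Fact p.Prime]

theorem prod_le_iff {S : Finset (HeightOneSpectrum (𝓞 K))} (v : HeightOneSpectrum (𝓞 K)) :
    (∏ u ∈ S, u.asIdeal) ≤ v.asIdeal ↔ v ∈ S := by
  constructor
  · intro h
    obtain ⟨u, hu, huv⟩ := (v.isPrime.prod_le).1 h
    have : u = v := HeightOneSpectrum.ext (u.isMaximal.eq_of_le v.isPrime.ne_top huv)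
    exact this ▸ hu
  · intro h
    exact Ideal.le_of_dvd (Finset.dvd_prod_of_mem _ h)

theorem rc (h2 : p = 2 → IsEmpty (K →+* ℝ)) {S : Finset (HeightOneSpectrum (𝓞 K))}
    {w : HeightOneSpectrum (𝓞 K)} (h : Generates p S w) :
    Pool.Agent.H517.S.RC p {v | (p : 𝓞 K) ∈ v.asIdeal ∨ v ∈ S} w := by
  obtain ⟨e, 𝔟, hab, hcop, hun⟩ := h.units
  have h1 := Pool.Agent.H517.S.rc_all h2 hab hcop (𝔫 := ∏ v ∈ S, v.asIdeal) ?_ ?_ h.above
    (B.cls_divisor h.classes) hun
  · simpa only [prod_le_iff] using h1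
  · exact Finset.prod_ne_zero_iff.2 fun v _ => v.ne_bot
  · refine IsCoprime.prod_right fun v hv => ?_
    rw [Ideal.isCoprime_iff_sup_eq]
    have h3 : ¬ Ideal.span {(p : 𝓞 K)} ≤ v.asIdeal := by
      rw [Ideal.span_singleton_le_iff_mem]
      exact h.tame v hv
    exact v.isMaximal.1.2 _ (lt_of_le_of_ne le_sup_right fun h4 => h3 (by
      rw [h4]; exact le_sup_left))

theorem out_IS {S : Finset (HeightOneSpectrum (𝓞 K))} {w : HeightOneSpectrum (𝓞 K)} (σ : Gal K)
    (h : σ ∈ Pool.Agent.H517.S.IS (K := K) {v | (p : 𝓞 K) ∈ v.asIdeal ∨ v ∈ S} w) :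
    ∃ Q, Outside p S Q ∧ σ ∈ Inr Q := by
  obtain ⟨Q, v, hQm, hQv, hvS, hvw, hσ⟩ := h
  refine ⟨Q, ⟨hQm, fun hpQ => hvS (Or.inl ?_), fun u hu hQu => hvS (Or.inr ?_)⟩, hσ⟩
  · rw [← hQv, Ideal.mem_comap, map_natCast]
    exact hpQ
  · have : u = v := HeightOneSpectrum.ext (hQu.2.symm.trans hQv)
    exact this ▸ hu

theorem ind_iff {S : Finset (HeightOneSpectrum (𝓞 K))} {w : HeightOneSpectrum (𝓞 K)}
    (hw : (p : 𝓞 K) ∈ w.asIdeal) :
    Independent p S w ↔ E.Ind p {v | (p : 𝓞 K) ∈ v.asIdeal ∨ v ∈ S} w := by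
  constructor
  · intro h
    refine ⟨fun Q hQ hQw ζ hζ => h.roots Q ⟨hQ, hQw⟩ ζ hζ, fun x hx hv ⟨Q, y, hQ, hQw, hy⟩ =>
      h.powers x hx (fun v hpv hvS => hv v (fun h => h.elim hpv hvS) fun hvw => hpv (hvw ▸ hw))
        ⟨Q, y, ⟨hQ, hQw⟩, hy⟩⟩
  · intro h
    refine ⟨fun Q hQ ζ hζ => h.roots Q hQ.1 hQ.2 ζ hζ, fun x hx hv ⟨Q, y, hQ, hy⟩ =>
      h.powers x hx (fun v hpv _ => hv v (fun h => hpv (Or.inl h)) fun h => hpv (Or.inr h))
        ⟨Q, y, hQ.1, hQ.2, hy⟩⟩

theorem exists_eps : ∃ (ζ : Bar K) (ε : Gal K →* (ZMod p)ˣ), IsPrimitiveRoot ζ p ∧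
    ∀ σ : Gal K, σ ζ = ζ ^ (ε σ : ZMod p).val := by
  obtain ⟨ζ, hζ⟩ : ∃ ζ : Bar K, IsPrimitiveRoot ζ p :=
    HasEnoughRootsOfUnity.exists_primitiveRoot (AlgebraicClosure K) p
  exact ⟨ζ, hζ.autToPow K, hζ, fun σ => (hζ.autToPow_spec K σ).symm⟩

/-- the decomposition group controls the homomorphisms -/
theorem control {S : Finset (HeightOneSpectrum (𝓞 K))} {w : HeightOneSpectrum (𝓞 K)}
    (hrc : Pool.Agent.H517.S.RC p {v | (p : 𝓞 K) ∈ v.asIdeal ∨ v ∈ S} w)
    (hw : (p : 𝓞 K) ∈ w.asIdeal)
    {L : IntermediateField K (Bar K)} (hL : Controlled p S w L) {Q : Ideal (𝓞 (Bar K))}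
    (hQ : Above Q w) :
    E.Ctl (1 : L.fixingSubgroup →* (ZMod p)ˣ)
      {σ : L.fixingSubgroup | (σ : Gal K) ∈
        Pool.Agent.H517.S.IS (K := K) {v | (p : 𝓞 K) ∈ v.asIdeal ∨ v ∈ S} w}
      {σ : L.fixingSubgroup | (σ : Gal K) ∈ Pool.Agent.NH7.Sch.Dec Q} := by
  rcases hL with ⟨M, hLM, hfd, hgal, ⟨a, ha⟩, hur⟩ | ⟨hI, M, hLM, hfd, hgal, ⟨a, ha⟩, hζM, hur⟩
  · refine E.ctl_of_tower fun N hN hNo hNi hIN => ?_
    exact Pool.Agent.H517.S.no_split hrc (IntermediateField.fixingSubgroup_le hLM) inferInstance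
      ⟨a, by rw [← IntermediateField.finrank_eq_fixingSubgroup_index, ha]⟩
      (IntermediateField.fixingSubgroup_isOpen M)
      (by
        intro σ hσ
        obtain ⟨Q', hQ', hσ'⟩ := out_IS σ hσ
        rw [IntermediateField.mem_fixingSubgroup_iff]
        exact hur Q' hQ' σ hσ') hQ.1 hQ.2 N hN hNo hNi fun x hx => hIN x hx
  · obtain ⟨ζ, ε, hζ, hε⟩ := exists_eps (K := K) (p := p)
    exact (E.ctl_quad hrc ((ind_iff hw).1 hI) hζ hε
      (IntermediateField.fixingSubgroup_le hLM) (M := M.fixingSubgroup) inferInstance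
      (fun σ hσ => (IntermediateField.mem_fixingSubgroup_iff M _).1 hσ ζ (hζM ζ hζ.pow_eq_one))
      ⟨a, by rw [← IntermediateField.finrank_eq_fixingSubgroup_index, ha]⟩
      (IntermediateField.fixingSubgroup_isOpen M)
      (by
        intro σ hσ
        obtain ⟨Q', hQ', hσ'⟩ := out_IS σ hσ
        rw [IntermediateField.mem_fixingSubgroup_iff]
        exact hur Q' hQ' σ hσ') hQ.1 hQ.2).2.2.1

/-- **The main theorem.** -/
theorem main {S : Finset (HeightOneSpectrum (𝓞 K))} {w : HeightOneSpectrum (𝓞 K)}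
    (hrc : Pool.Agent.H517.S.RC p {v | (p : 𝓞 K) ∈ v.asIdeal ∨ v ∈ S} w)
    (hw : (p : 𝓞 K) ∈ w.asIdeal)
    {L : IntermediateField K (Bar K)} (hL : Controlled p S w L)
    {A : Type} [CommRing A] [IsLocalRing A] [IsNoetherianRing A] [TopologicalSpace A]
    (hA : IsAdic (maximalIdeal A)) (hfin : Finite (ResidueField A)) (hpA : (p : A) ∈ maximalIdeal A)
    {F : Type} [Field F] [IsAlgClosed F] [Algebra A F] (hpF : (p : F) ≠ 0)
    {n : ℕ} (hn : n ≠ 0) {ρ : GalL L →* GL (Fin n) A} (hρ : Admissible p S ρ)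
    (hirr : Irreducible F ρ) {Q : Ideal (𝓞 (Bar K))} (hQ : Above Q w) :
    (∃ (H : Subgroup (GalL L)) (W : Submodule F (Fin n → F)), InducedFrom F p ρ H W ∧
      ∀ X : Submodule F (Fin n → F), PotentiallyStable F ρ (Dec Q) X →
        finrank F W ∣ finrank F X) ∧
    ((∃ X : Submodule F (Fin n → F), PotentiallyStable F ρ (Dec Q) X ∧
      (finrank F X).Coprime n) → PotentiallyAbelian F ρ) := by
  obtain ⟨H, W, h1, h2, h3, h4, h5⟩ := E.fm2 (control hrc hw hL hQ) hA hfin hpA hpF hn (ρ := ρ)
    hρ.cont hρ.unipotent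
    (by
      intro σ hσ
      obtain ⟨Q', hQ', hσ'⟩ := out_IS (σ : Gal K) hσ
      exact hρ.unramified Q' hQ' σ hσ')
    (fun W hW => hirr W fun σ _ x hx => hW σ x hx)
  have hdiv : ∀ X : Submodule F (Fin n → F), PotentiallyStable F ρ (Dec Q) X →
      finrank F W ∣ finrank F X := by
    rintro X ⟨D', R, hRf, hR, hX⟩
    exact h5 D' R X hRf hR hX
  refine ⟨⟨H, W, ⟨h1, h2, h3, h4⟩, hdiv⟩, ?_⟩
  rintro ⟨X, hX, hco⟩
  have hW1 : finrank F W = 1 := by
    have h6 : finrank F W ∣ n := ⟨H.index, by rw [mul_comm, h4]⟩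
    exact Nat.eq_one_of_dvd_coprimes hco (hdiv X hX) h6
  have hHi : H.index ≠ 0 := by
    intro h0
    rw [h0, zero_mul] at h4
    exact hn h4.symm
  exact Pool.Agent.H517.S.pot_ab (fun W hW => hirr W fun σ _ x hx => hW σ x hx) h1 hHi h3 hW1

open Pool.Agent.N817.PF (cong cong_normal cong_open cong_index cong_anti) in
/-- **Potentially stable subspaces, semisimple representations.** -/
theorem main2 {S : Finset (HeightOneSpectrum (𝓞 K))} {w : HeightOneSpectrum (𝓞 K)}
    (hrc : Pool.Agent.H517.S.RC p {v | (p : 𝓞 K) ∈ v.asIdeal ∨ v ∈ S} w)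
    (hw : (p : 𝓞 K) ∈ w.asIdeal)
    {L : IntermediateField K (Bar K)} (hL : Controlled p S w L)
    {A : Type} [CommRing A] [IsLocalRing A] [IsNoetherianRing A] [TopologicalSpace A]
    (hA : IsAdic (maximalIdeal A)) (hfin : Finite (ResidueField A)) (hpA : (p : A) ∈ maximalIdeal A)
    {F : Type} [Field F] [Algebra A F]
    {n : ℕ} {ρ : GalL L →* GL (Fin n) A} (hρ : Admissible p S ρ)
    {Q : Ideal (𝓞 (Bar K))} (hQ : Above Q w) :
    (∀ X : Submodule F (Fin n → F), PotentiallyStable F ρ (Dec Q) X → OpenlyStable F p ρ X) ∧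
    (Semisimple F ρ → HasFlag F ρ (Dec Q) → PotentiallyAbelian F ρ) := by
  have hur : ∀ σ : L.fixingSubgroup, (σ : Gal K) ∈ Pool.Agent.H517.S.IS (K := K)
      {v | (p : 𝓞 K) ∈ v.asIdeal ∨ v ∈ S} w → ρ σ = 1 := by
    intro σ hσ
    obtain ⟨Q', hQ', hσ'⟩ := out_IS (σ : Gal K) hσ
    exact hρ.unramified Q' hQ' σ hσ'
  have key : ∀ X : Submodule F (Fin n → F), PotentiallyStable F ρ (Dec Q) X →
      ∃ m : ℕ, ∀ σ ∈ cong ρ m, ∀ x ∈ X, act F ρ σ x ∈ X := by
    rintro X ⟨D', R, hRf, hR, hX⟩
    exact E.pot_stable (control hrc hw hL hQ) hA hfin hpA hρ.cont hρ.unipotent hur hRf hR hX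
  refine ⟨fun X hX => ?_, fun hss hfl => ?_⟩
  · obtain ⟨m, hm⟩ := key X hX
    exact ⟨cong ρ m, cong_open hA hρ.cont m, cong_index hp.out hpA hfin ρ hρ.unipotent m, hm⟩
  · obtain ⟨X, h0, hn, hX⟩ := hfl
    choose! m hm using fun i hi => key (X i) (hX i hi).2.2
    set M : ℕ := (Finset.range n).sup m with hM
    have hMm : ∀ i < n, cong ρ M ≤ cong ρ (m i) := fun i hi =>
      cong_anti ρ (Finset.le_sup (Finset.mem_range.2 hi))
    have hfi : (cong ρ M).FiniteIndex := by
      obtain ⟨b, hb⟩ := cong_index hp.out hpA hfin ρ hρ.unipotent M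
      exact ⟨by rw [hb]; exact pow_ne_zero _ hp.out.ne_zero⟩
    refine ⟨cong ρ M, cong_normal ρ M, hfi, cong_open hA hρ.cont M, ?_⟩
    refine E.flag_comm (Pool.Agent.N817.PF.act F ρ) ?_ (cong_normal ρ M) (m := n) X h0 hn
      (fun i hi => (hX i hi).1) (fun i hi => (hX i hi).2.1) ?_
    · intro Y hY
      obtain ⟨Z, hZ, hc⟩ := hss Y fun σ _ x hx => hY σ x hx
      exact ⟨Z, fun σ x hx => hZ σ trivial x hx, hc⟩
    · intro i hi σ hσ x hx
      rcases Nat.lt_or_eq_of_le hi with h | h
      · exact hm i h σ (hMm i h hσ) x hx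
      · rw [h, hn]
        trivial

theorem isClosed_L {S : Finset (HeightOneSpectrum (𝓞 K))} {w : HeightOneSpectrum (𝓞 K)}
    {L : IntermediateField K (Bar K)} (hL : Controlled p S w L) :
    IsClosed (L.fixingSubgroup : Set (Gal K)) := by
  obtain ⟨M, hLM, hfd⟩ : ∃ M : IntermediateField K (Bar K), L ≤ M ∧ FiniteDimensional K M := by
    rcases hL with ⟨M, h, hf, -⟩ | ⟨-, M, h, hf, -⟩ <;> exact ⟨M, h, hf⟩
  exact Subgroup.isClosed_of_isOpen _ (Subgroup.isOpen_mono
    (IntermediateField.fixingSubgroup_le hLM) (IntermediateField.fixingSubgroup_isOpen M))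

/-- **The image of the decomposition group.** -/
theorem main3 {S : Finset (HeightOneSpectrum (𝓞 K))} {w : HeightOneSpectrum (𝓞 K)}
    (hrc : Pool.Agent.H517.S.RC p {v | (p : 𝓞 K) ∈ v.asIdeal ∨ v ∈ S} w)
    (hw : (p : 𝓞 K) ∈ w.asIdeal)
    {L : IntermediateField K (Bar K)} (hL : Controlled p S w L)
    {A : Type} [CommRing A] [IsLocalRing A] [IsNoetherianRing A] [TopologicalSpace A]
    (hA : IsAdic (maximalIdeal A)) (hfin : Finite (ResidueField A)) (hpA : (p : A) ∈ maximalIdeal A)
    {n : ℕ} {ρ : GalL L →* GL (Fin n) A} (hρ : Admissible p S ρ)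
    {Q : Ideal (𝓞 (Bar K))} (hQ : Above Q w) (σ : GalL L) :
    ∃ δ : GalL L, (δ : Gal K) ∈ Dec Q ∧ ρ δ = ρ σ := by
  refine E.full_image (H := L.fixingSubgroup) (isClosed_L hL)
    (control hrc hw hL hQ) hA hfin hpA hρ.cont hρ.unipotent (fun σ hσ => ?_) σ
  obtain ⟨Q', hQ', hσ'⟩ := out_IS (σ : Gal K) hσ
  exact hρ.unramified Q' hQ' σ hσ'

/-- the fields `ℚ(√(1 - 4p))` -/
theorem quadratic (h2 : finrank ℚ K = 2) (h : ∃ α : K, α ^ 2 - α + p = 0) :
    IsEmpty (K →+* ℝ) ∧ ∀ w : HeightOneSpectrum (𝓞 K), (p : 𝓞 K) ∈ w.asIdeal →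
      Generates p ∅ w := by
  obtain ⟨a, ha⟩ := h
  have hint : IsIntegral ℤ a := by
    refine ⟨Polynomial.X ^ 2 - Polynomial.X + Polynomial.C (p : ℤ), by monicity!, ?_⟩
    simpa using ha
  obtain ⟨α, hα0⟩ : ∃ α : 𝓞 K, α = ⟨a, hint⟩ := ⟨_, rfl⟩
  have hα1 : algebraMap (𝓞 K) K α = a := by rw [hα0]; rfl
  have hα : α ^ 2 - α + p = 0 := by
    apply FaithfulSMul.algebraMap_injective (𝓞 K) K
    rw [map_add, map_sub, map_pow, map_natCast, map_zero, hα1, ha]
  obtain ⟨β, hβ0⟩ : ∃ β : 𝓞 K, β = 1 - α := ⟨_, rfl⟩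
  have hβ : β ^ 2 - β + p = 0 := by rw [hβ0]; linear_combination hα
  obtain ⟨w₁, hw₁⟩ := B.exists_pl (p := p) h2 hα
  obtain ⟨w₂, hw₂⟩ := B.exists_pl (p := p) h2 hβ
  have hsum : α + β = 1 := by rw [hβ0]; ring
  have hmul : α * β = p := by rw [hβ0]; linear_combination -hα
  have hcop : IsCoprime w₁.asIdeal w₂.asIdeal := by
    rw [hw₁, hw₂, Ideal.isCoprime_span_singleton_iff]
    exact ⟨1, 1, by rw [one_mul, one_mul, hsum]⟩
  have hab : w₁.asIdeal * w₂.asIdeal = Ideal.span {(p : 𝓞 K)} := by
    rw [hw₁, hw₂, Ideal.span_singleton_mul_span_singleton, hmul]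
  have hcl := B.class_lt h2 hp.out hα
  refine ⟨B.no_real hp.out.one_le hα, fun w hw => ?_⟩
  have hw' : w = w₁ ∨ w = w₂ := by
    have h3 : w₁.asIdeal * w₂.asIdeal ≤ w.asIdeal := by
      rw [hab, Ideal.span_singleton_le_iff_mem]
      exact hw
    rcases (w.isPrime.mul_le).1 h3 with h4 | h4
    · exact Or.inl (HeightOneSpectrum.ext (w₁.isMaximal.eq_of_le w.isPrime.ne_top h4)).symm
    · exact Or.inr (HeightOneSpectrum.ext (w₂.isMaximal.eq_of_le w.isPrime.ne_top h4)).symm
  rcases hw' with rfl | rfl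
  · refine ⟨hw, by simp, B.class_cond hcl w, 1, w₂.asIdeal, by rw [pow_one, hab], hcop, ?_⟩
    intro x hx
    rw [Finset.prod_empty, mul_one] at hx
    obtain ⟨α', y, k, h3, h4⟩ := B.unit_cond h2 hα hsum hw₁ hw₂ x hx
    exact ⟨α', y, k, h3, by rwa [Finset.prod_empty, mul_one]⟩
  · refine ⟨hw, by simp, B.class_cond hcl w, 1, w₁.asIdeal, by rw [pow_one, mul_comm, hab],
      hcop.symm, ?_⟩
    intro x hx
    rw [Finset.prod_empty, mul_one] at hx
    obtain ⟨α', y, k, h3, h4⟩ := B.unit_cond h2 hβ (by rw [add_comm, hsum]) hw₂ hw₁ x hx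
    exact ⟨α', y, k, h3, by rwa [Finset.prod_empty, mul_one]⟩

/-- the field `ℚ` -/
theorem rational {q : ℕ} [hq : Fact q.Prime] (hpq : p ≠ q)
    (hc : q % p = 1 → ∀ y : ZMod q, y ^ p ≠ p) {w v : HeightOneSpectrum (𝓞 ℚ)}
    (hw : (p : 𝓞 ℚ) ∈ w.asIdeal) (hv : (q : 𝓞 ℚ) ∈ v.asIdeal) : Generates p {v} w := by
  refine ⟨hw, ?_, fun C => ⟨1, 0, hp.out.one_lt.ne' ∘ Nat.dvd_one.1, by
    rw [Pool.Agent.H517.S.cls_rat C, one_pow, pow_zero]⟩, 1, ⊤, ?_, ?_, ?_⟩
  · intro u hu
    rw [Finset.mem_singleton] at hu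
    subst hu
    have h1 := Pool.Agent.H517.S.mem_iff_rat hq.out hv (p : ℤ)
    rw [Int.cast_natCast] at h1
    rw [h1]
    intro h2
    exact hpq ((Nat.prime_dvd_prime_iff_eq hq.out hp.out).1 (by exact_mod_cast h2)).symm
  · rw [pow_one, Ideal.mul_top, Pool.Agent.H517.S.eq_span_rat hp.out hw]
  · rw [← Ideal.one_eq_top]
    exact isCoprime_one_right
  · intro x hx
    rw [Finset.prod_singleton, ← Ideal.one_eq_top, one_mul] at hx
    obtain ⟨α, y, k, h1, h2⟩ := Pool.Agent.H517.S.units_rat hpq hc hw hv x hx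
    exact ⟨α, y, k, h1, by rwa [Finset.prod_singleton, ← Ideal.one_eq_top, one_pow, one_mul]⟩

/-! ### The density of the primes which can be added to `S`, and more families -/

theorem gen_iff (S : Finset (HeightOneSpectrum (𝓞 K))) (w : HeightOneSpectrum (𝓞 K)) :
    Generates p S w ↔ D.Gen p S w :=
  ⟨fun h => ⟨h.above, h.tame, h.classes, h.units⟩, fun h => ⟨h.above, h.tame, h.classes, h.units⟩⟩

theorem kummerDegree_eq : ((kummerDegree p K : ℕ) : ℝ) =
    (D.cyc p K : ℝ) * (p : ℝ) ^ (NumberField.Units.rank K + 1 + D.del p K) := by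
  have h1 : NumberField.Units.rank K + 1 =
      InfinitePlace.nrRealPlaces K + InfinitePlace.nrComplexPlaces K := by
    unfold NumberField.Units.rank
    rw [InfinitePlace.card_eq_nrRealPlaces_add_nrComplexPlaces]
    have h2 : 0 < Fintype.card (InfinitePlace K) := Fintype.card_pos
    rw [InfinitePlace.card_eq_nrRealPlaces_add_nrComplexPlaces] at h2
    omega
  rw [h1]
  unfold kummerDegree D.cyc D.del
  push_cast
  rfl

open Classical in
theorem density {S : Finset (HeightOneSpectrum (𝓞 K))} {w : HeightOneSpectrum (𝓞 K)}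
    (hG : Generates p S w) {e : ℕ} {𝔟 : Ideal (𝓞 K)}
    (hab : w.asIdeal ^ e * 𝔟 = Ideal.span {(p : 𝓞 K)}) (hcop : IsCoprime w.asIdeal 𝔟) :
    HasDensity (fun v => Generates p (insert v S) w)
      (1 - (unitsModPowers p (𝔟 ^ 3 * ∏ v ∈ S, v.asIdeal) : ℝ) / (kummerDegree p K : ℝ)) := by
  have h := D.rel_dens (D.dens_gen D.s_eq D.s_fr D.s_kum (D.s_cnt D.s_rk) K p S w
    ((gen_iff S w).1 hG) e 𝔟 hab hcop)
  rw [← kummerDegree_eq] at h
  unfold HasDensity
  simp only [gen_iff]
  exact h

open Classical in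
theorem units_only (S : Finset (HeightOneSpectrum (𝓞 K))) :
    unitsModPowers p ((⊤ : Ideal (𝓞 K)) ^ 3 * ∏ v ∈ S, v.asIdeal) =
      p ^ (S.filter fun v => p ∣ Ideal.absNorm v.asIdeal - 1).card := by
  unfold unitsModPowers
  rw [← Ideal.one_eq_top, one_pow, one_mul]
  exact D.pwi_primes p S

/-- only one place above `p` -/
theorem only {w : HeightOneSpectrum (𝓞 K)} (hw : (p : 𝓞 K) ∈ w.asIdeal)
    (h1 : ∃ e : ℕ, w.asIdeal ^ e = Ideal.span {(p : 𝓞 K)})
    (hcl : ClassCondition p w) : Generates p ∅ w := by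
  obtain ⟨e, he⟩ := h1
  refine ⟨hw, by simp, hcl, e, ⊤, by rw [Ideal.mul_top, he], ?_, ?_⟩
  · rw [← Ideal.one_eq_top]
    exact isCoprime_one_right
  · intro x _
    refine ⟨1, 0, 0, by simp, ?_⟩
    rw [Finset.prod_empty, mul_one, ← Ideal.one_eq_top, one_pow, Ideal.one_eq_top]
    trivial

/-- a second place above `p`, of degree one -/
theorem second (hp2 : p ≠ 2) {w w' : HeightOneSpectrum (𝓞 K)} {e : ℕ}
    (hab : w.asIdeal ^ e * w'.asIdeal = Ideal.span {(p : 𝓞 K)}) (hw : (p : 𝓞 K) ∈ w.asIdeal)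
    (hne : w ≠ w') (hN : Ideal.absNorm w'.asIdeal = p)
    (hcl : ClassCondition p w) {α : 𝓞 K} {k : ℕ}
    (hα : Ideal.span {α} = w.asIdeal ^ k) (h2 : α ^ (p - 1) - 1 ∉ w'.asIdeal ^ 2) :
    Generates p ∅ w := by
  refine ⟨hw, by simp, hcl, e, w'.asIdeal, hab, ?_, ?_⟩
  · rw [Ideal.isCoprime_iff_sup_eq]
    refine w'.isMaximal.1.2 _ (lt_of_le_of_ne le_sup_right fun h4 => hne ?_)
    have h5 : w.asIdeal ≤ w'.asIdeal := by rw [h4]; exact le_sup_left
    exact HeightOneSpectrum.ext (w.isMaximal.eq_of_le w'.isPrime.ne_top h5)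
  · intro x hx
    rw [Finset.prod_empty, mul_one] at hx ⊢
    exact D.s_one K p hp2 w w' e hab hne hN α k hα h2 x hx

/-- imaginary quadratic fields -/
theorem quad (hp2 : p ≠ 2) (h2 : finrank ℚ K = 2) (hre : IsEmpty (K →+* ℝ))
    (hcl : ¬ p ∣ classNumber K) {w w' : HeightOneSpectrum (𝓞 K)} (hne : w ≠ w')
    (hab : w.asIdeal * w'.asIdeal = Ideal.span {(p : 𝓞 K)}) {α : 𝓞 K} {k : ℕ}
    (hα : Ideal.span {α} = w.asIdeal ^ k) (hα2 : α ^ (p - 1) - 1 ∉ w'.asIdeal ^ 2) :
    (Generates p ∅ w ∧ Independent p ∅ w) ∧ Generates p ∅ w' ∧ Independent p ∅ w' := by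
  have hpw : (p : 𝓞 K) ∈ w.asIdeal := by
    have h3 : Ideal.span {(p : 𝓞 K)} ≤ w.asIdeal := by
      rw [← hab]
      exact Ideal.mul_le_left
    rwa [Ideal.span_singleton_le_iff_mem] at h3
  have hpw' : (p : 𝓞 K) ∈ w'.asIdeal := by
    have h3 : Ideal.span {(p : 𝓞 K)} ≤ w'.asIdeal := by
      rw [← hab]
      exact Ideal.mul_le_right
    rwa [Ideal.span_singleton_le_iff_mem] at h3
  obtain ⟨h3, h4, β, hβ, hβ2⟩ := E.both_quad hp2 h2 hre hcl hne hab
    (T := {v | (p : 𝓞 K) ∈ v.asIdeal ∨ v ∈ (∅ : Finset (HeightOneSpectrum (𝓞 K)))})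
    (fun v hv => hv.elim id fun h => absurd h (Finset.notMem_empty v)) hα hα2
  refine ⟨⟨⟨hpw, by simp, E.class_pow hcl w (cl w), ?_⟩, (ind_iff hpw).2 h3⟩,
    ⟨hpw', by simp, E.class_pow hcl w (cl w'), ?_⟩, (ind_iff hpw').2 h4⟩
  · simpa only [Finset.prod_empty, mul_one] using E.units_quad hp2 h2 hne hab hα hα2
  · simpa only [Finset.prod_empty, mul_one] using
      E.units_quad hp2 h2 hne.symm (by rw [mul_comm]; exact hab) hβ hβ2

end proof

/-- **One decomposition group controls the representations over the fields in the `p`-towers.** (1) For every prime number `p`, number field `K` (totally complex if `p = 2`), finite set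
`S` of primes and place `w` with the condition `Generates`, all fields `L` contained in a finite Galois
extension of `K` of `p`-power degree unramified outside `p` and `S` (with the condition `Independent`
also those contained in a finite Galois extension of `K` of degree `2 · p ^ a` unramified outside `p` and `S` which
contains the `p`-th roots of unity), all coefficients, dimensions,
representations, and all places `Q` above `w`. (2) If the condition holds for `S`, then the
set of the primes `v` such that it holds for `S ∪ {v}` has a natural density, which is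
`1 - #((O / 𝔟 ^ 3 𝔫)ˣ / p-th powers) / ([K(ζ_p) : K] p ^ (r₁ + r₂ + δ))`. (3) If `w` is the only place above
`p` (`𝔟 = O`) the numerator is `p ^ j`, `j` the number of the `v ∈ S` with norm `1` modulo `p`, and the
condition holds for `S = ∅` if the class group modulo the class of `w` has order prime to `p`. (4) If
there is only one other place `w'` above `p`, it is unramified of degree `1`, `p` is odd and the class group
modulo the class of `w` has order prime to `p`, the condition holds for `S = ∅` if there is an `α` such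
that `(α)` is a power of `w` and `α ^ (p - 1)` is not `1` modulo `w' ^ 2`. (5) It holds for `S = ∅` and
both places above `p` of `K = ℚ(√(1 - 4 p))`, generated by a root of `X ^ 2 - X + p`, for all prime numbers
`p`; and both conditions hold for `S = ∅` and both places above an odd `p` of an imaginary quadratic field with the
condition `Gold`. (6) It holds for `K = ℚ` and `S = {q}` for all prime numbers `p`, `q`, `p ≠ q`, unless `q` is `1`
modulo `p` and `p` is a `p`-th power modulo `q`. -/
theorem result :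
    (∀ (p : ℕ) [Fact p.Prime] (K : Type) [Field K] [NumberField K]
      (S : Finset (HeightOneSpectrum (𝓞 K))) (w : HeightOneSpectrum (𝓞 K)), Generates p S w →
        DensityOfExtensions p S w ∧ ((p = 2 → IsEmpty (K →+* ℝ)) → OnePlaceControls p S w)) ∧
    (∀ (p : ℕ) [Fact p.Prime] (K : Type) [Field K] [NumberField K] (w : HeightOneSpectrum (𝓞 K)),
      (p : 𝓞 K) ∈ w.asIdeal → ClassCondition p w → OnlyPlace p w ∨ SecondPlace p w →
        Generates p ∅ w) ∧
    (∀ (p : ℕ) [Fact p.Prime] (K : Type) [Field K] [NumberField K], p ≠ 2 →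
      finrank ℚ K = 2 → IsEmpty (K →+* ℝ) → ∀ w w' : HeightOneSpectrum (𝓞 K), Gold p w w' →
        Suitable p ∅ w ∧ Suitable p ∅ w') ∧
    (∀ (p : ℕ) [Fact p.Prime] (K : Type) [Field K] [NumberField K], finrank ℚ K = 2 →
      (∃ α : K, α ^ 2 - α + p = 0) → IsEmpty (K →+* ℝ) ∧
        ∀ w : HeightOneSpectrum (𝓞 K), (p : 𝓞 K) ∈ w.asIdeal → Generates p ∅ w) ∧
    ∀ (p q : ℕ) [Fact p.Prime] [Fact q.Prime], p ≠ q →
      (q % p = 1 → ∀ y : ZMod q, y ^ p ≠ p) →
      ∀ w v : HeightOneSpectrum (𝓞 ℚ), (p : 𝓞 ℚ) ∈ w.asIdeal → (q : 𝓞 ℚ) ∈ v.asIdeal →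
        Generates p {v} w := by
  refine ⟨?_, ?_, ?_, ?_, ?_⟩
  · intro p _ K _ _ S w hw
    refine ⟨?_, ?_⟩
    · intro e 𝔟 hab hcop
      refine ⟨density hw hab hcop, ?_⟩
      rintro rfl
      exact units_only S
    · intro h2 L hL A _ _ _ _ hA hfin hpA F _ _ n ρ hρ Q hQ
      obtain ⟨h3, h4⟩ := main2 (rc h2 hw) hw.above hL hA hfin hpA (F := F) hρ hQ
      refine ⟨fun σ => main3 (rc h2 hw) hw.above hL hA hfin hpA hρ hQ σ, h3, h4,
        fun hF hpF hn hirr => ?_⟩
      exact main (rc h2 hw) hw.above hL hA hfin hpA hpF hn hρ hirr hQ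
  · intro p _ K _ _ w hw hcl h
    rcases h with h1 | ⟨hp2, w', e, hne, hab, hN, α, k, hα, h2⟩
    · exact only hw h1 hcl
    · exact second hp2 hab hw hne hN hcl hα h2
  · intro p _ K _ _ hp2 h2 hre w w' ⟨hne, hab, hcl, α, k, hα, hα2⟩
    exact quad hp2 h2 hre hcl hne hab hα hα2
  · intro p _ K _ _ h2 h
    exact quadratic h2 h
  · intro p q _ _ hpq hc w v hw hv
    exact rational hpq hc hw hv

end Pool.Agent.Results.MP_f68ac8_nt.OnePlaceInTowers
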